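import Pool.Agent.H295R3.D6.Stmts

set_option autoImplicit false

open Finset Filter

namespace Pool.Agent.H157R3.D6

open Pool.Agent.H295R3.D6

/-- residues that are hit -/
def IR (w q : ℕ) : Finset ℕ := (range q).filter (fun r => r < w ∨ q < r + w)

lemma hit_iff {w q : ℕ} (hw : w < q) (n : ℕ) : hit q n w ↔ n % q ∈ IR w q := by
  have hq : 0 < q := by omega
  have hdm := Nat.div_add_mod n q
  have hr : n % q < q := Nat.mod_lt _ hq
  unfold hit IR
  simp only [mem_filter, mem_range, hr, true_and]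
  constructor
  · rintro ⟨m, ⟨k, rfl⟩, h1, h2⟩
    rcases lt_trichotomy (n / q) k with h | h | h
    · have h3 : q * (n / q + 1) ≤ q * k := Nat.mul_le_mul_left q h
      rw [Nat.mul_add, mul_one] at h3
      right
      omega
    · left
      rw [h] at hdm
      omega
    · exfalso
      have h3 : q * (k + 1) ≤ q * (n / q) := Nat.mul_le_mul_left q h
      rw [Nat.mul_add, mul_one] at h3
      omega
  · rintro (h | h)
    · exact ⟨q * (n / q), dvd_mul_right _ _, by omega, by omega⟩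
    · refine ⟨q * (n / q + 1), dvd_mul_right _ _, ?_, ?_⟩
      · rw [Nat.mul_add, mul_one]; omega
      · rw [Nat.mul_add, mul_one]; omega

lemma card_IR (w q : ℕ) : (IR w q).card ≤ 2 * w := by
  have h1 : IR w q ⊆ range w ∪ Ioo (q - w) q := by
    intro r hr
    simp only [IR, mem_filter, mem_range, mem_union, mem_Ioo] at hr ⊢
    omega
  calc (IR w q).card ≤ (range w ∪ Ioo (q - w) q).card := card_le_card h1
    _ ≤ (range w).card + (Ioo (q - w) q).card := card_union_le _ _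
    _ ≤ 2 * w := by
      rw [card_range, Nat.card_Ioo]
      omega

/-- primes in `(w, Q]` -/
def PP (w Q : ℕ) : Finset ℕ := (Icc 1 Q).filter (fun q => q.Prime ∧ w < q)

lemma mem_PP {w Q q : ℕ} : q ∈ PP w Q ↔ q ≤ Q ∧ q.Prime ∧ w < q := by
  unfold PP
  simp only [mem_filter, mem_Icc]
  constructor
  · rintro ⟨⟨h1, h2⟩, h3, h4⟩; exact ⟨h2, h3, h4⟩
  · rintro ⟨h2, h3, h4⟩; exact ⟨⟨h3.one_lt.le, h2⟩, h3, h4⟩

lemma mert_PP {C : ℝ} (hC : ∀ N : ℕ, 1 ≤ N →
    |∑ p ∈ (Icc 1 N).filter Nat.Prime, Real.log p / p - Real.log N| ≤ C)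
    {w Q : ℕ} (hw : 1 ≤ w) (hwQ : w ≤ Q) :
    ∑ q ∈ PP w Q, Real.log q / q ≤ Real.log Q - Real.log w + 2 * C := by
  have h1 := abs_le.mp (hC Q (by omega))
  have h2 := abs_le.mp (hC w hw)
  have h3 : ∑ p ∈ (Icc 1 Q).filter Nat.Prime, Real.log p / p =
      ∑ p ∈ (Icc 1 w).filter Nat.Prime, Real.log p / p + ∑ q ∈ PP w Q, Real.log q / q := by
    rw [← sum_union]
    · apply sum_congr _ (fun _ _ => rfl)
      ext q
      simp only [mem_union, mem_PP, mem_filter, mem_Icc]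
      constructor
      · rintro ⟨⟨h1, h2⟩, h3⟩
        by_cases h : q ≤ w
        · exact Or.inl ⟨⟨h1, h⟩, h3⟩
        · exact Or.inr ⟨h2, h3, by omega⟩
      · rintro (⟨⟨h1, h2⟩, h3⟩ | ⟨h1, h2, h3⟩)
        · exact ⟨⟨h1, by omega⟩, h3⟩
        · exact ⟨⟨h2.one_lt.le, h1⟩, h2⟩
    · rw [disjoint_left]
      intro q h1 h2
      rw [mem_PP] at h2
      simp only [mem_filter, mem_Icc] at h1
      omega
  linarith [h1.2, h2.1]

open Classical in
lemma partA (hLS : TaskLS) {C : ℝ} (hC : ∀ N : ℕ, 1 ≤ N →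
    |∑ p ∈ (Icc 1 N).filter Nat.Prime, Real.log p / p - Real.log N| ≤ C)
    {η : ℝ} (hη : 0 < η) {N w Q : ℕ} (hw : 1 ≤ w) (hwQ : w ≤ Q) (hQN : Q ≤ N) (hN : 2 ≤ N)
    (hQ : Real.log Q ≤ Real.log w + 2 * η * Real.log N) (hCN : 8 * C ≤ η * Real.log N) :
    (((Icc 1 N).filter (fun n => 6 * η * w * Real.log N <
      ∑ q ∈ (Icc 1 Q).filter (fun q => q.Prime ∧ w < q ∧ hit q n w), Real.log q)).card : ℝ) *
      (η * w) ≤ 27 * ((N : ℝ) + (Q : ℝ) ^ 2) := by
  set L := Real.log N with hL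
  have hLpos : 0 < L := Real.log_pos (by exact_mod_cast hN)
  have hwR : (1 : ℝ) ≤ w := by exact_mod_cast hw
  have hls := hLS N Q (PP w Q) (IR w) ((PP w Q).image (fun q => ({q} : Finset ℕ)))
    (fun s => ∑ q ∈ s, Real.log q) (fun q hq => (mem_PP.mp hq).2.1)
    (fun q _ => filter_subset _ _) (by
      intro s hs
      obtain ⟨q, hq, rfl⟩ := mem_image.mp hs
      exact ⟨by simpa using hq, by simpa using (mem_PP.mp hq).1⟩)
  rw [sum_image (by intro a _ b _ h; simpa using h)] at hls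
  simp only [sum_singleton, prod_singleton] at hls
  have hsum : ∀ n : ℕ, ∑ s ∈ (PP w Q).image (fun q => ({q} : Finset ℕ)),
      (∑ q ∈ s, Real.log q) * ∏ q ∈ s, ((if n % q ∈ IR w q then (1 : ℝ) else 0) - ((IR w q).card : ℝ) / q)
      = ∑ q ∈ PP w Q, Real.log q * ((if n % q ∈ IR w q then (1 : ℝ) else 0) - ((IR w q).card : ℝ) / q) := by
    intro n
    rw [sum_image (by intro a _ b _ h; simpa using h)]
    simp only [sum_singleton, prod_singleton]
  simp only [hsum] at hls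
  -- the mean
  set M := ∑ q ∈ PP w Q, Real.log q * (((IR w q).card : ℝ) / q) with hM
  have hmert := mert_PP hC hw hwQ
  have hmert2 : ∑ q ∈ PP w Q, Real.log q / q ≤ 9 / 4 * η * L := by linarith
  have hcard : ∀ q ∈ PP w Q, ((IR w q).card : ℝ) / q ≤ 2 * w / q := by
    intro q hq
    have h1 : ((IR w q).card : ℝ) ≤ 2 * w := by exact_mod_cast card_IR w q
    gcongr
  have hlogq : ∀ q ∈ PP w Q, 0 ≤ Real.log q := by
    intro q hq
    exact Real.log_natCast_nonneg q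
  have hMle : M ≤ 9 / 2 * η * w * L := by
    calc M ≤ ∑ q ∈ PP w Q, Real.log q * (2 * w / q) := by
          apply sum_le_sum
          intro q hq
          exact mul_le_mul_of_nonneg_left (hcard q hq) (hlogq q hq)
      _ = 2 * w * ∑ q ∈ PP w Q, Real.log q / q := by
          rw [mul_sum]
          apply sum_congr rfl
          intro q hq
          ring
      _ ≤ 2 * w * (9 / 4 * η * L) := by gcongr
      _ = 9 / 2 * η * w * L := by ring
  have hV : ∑ q ∈ PP w Q, Real.log q ^ 2 * (((IR w q).card : ℝ) / q) ≤ 9 / 2 * η * w * L ^ 2 := by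
    calc ∑ q ∈ PP w Q, Real.log q ^ 2 * (((IR w q).card : ℝ) / q)
        ≤ ∑ q ∈ PP w Q, L * (Real.log q * (2 * w / q)) := by
          apply sum_le_sum
          intro q hq
          have h1 : Real.log q ≤ L := by
            apply Real.log_le_log
            · exact_mod_cast (mem_PP.mp hq).2.1.pos
            · exact_mod_cast (mem_PP.mp hq).1.trans hQN
          have h2 := hcard q hq
          have h3 := hlogq q hq
          have h4 : 0 ≤ ((IR w q).card : ℝ) / q := by positivity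
          calc Real.log q ^ 2 * (((IR w q).card : ℝ) / q)
              = Real.log q * (Real.log q * (((IR w q).card : ℝ) / q)) := by ring
            _ ≤ L * (Real.log q * (2 * w / q)) := by
                apply mul_le_mul h1 _ (by positivity) hLpos.le
                exact mul_le_mul_of_nonneg_left h2 h3
      _ = 2 * w * L * ∑ q ∈ PP w Q, Real.log q / q := by
          rw [mul_sum]
          apply sum_congr rfl
          intro q hq
          ring
      _ ≤ 2 * w * L * (9 / 4 * η * L) := by gcongr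
      _ = 9 / 2 * η * w * L ^ 2 := by ring
  set bad := (Icc 1 N).filter (fun n => 6 * η * w * L <
      ∑ q ∈ (Icc 1 Q).filter (fun q => q.Prime ∧ w < q ∧ hit q n w), Real.log q) with hbad
  have hHM : ∀ n : ℕ, ∑ q ∈ PP w Q, Real.log q *
      ((if n % q ∈ IR w q then (1 : ℝ) else 0) - ((IR w q).card : ℝ) / q) =
      ∑ q ∈ (Icc 1 Q).filter (fun q => q.Prime ∧ w < q ∧ hit q n w), Real.log q - M := by
    intro n
    simp only [mul_sub, sum_sub_distrib]
    congr 1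
    have h1 : (Icc 1 Q).filter (fun q => q.Prime ∧ w < q ∧ hit q n w) =
        (PP w Q).filter (fun q => n % q ∈ IR w q) := by
      ext q
      simp only [mem_filter, PP]
      constructor
      · rintro ⟨h1, h2, h3, h4⟩
        exact ⟨⟨h1, h2, h3⟩, (hit_iff h3 n).mp h4⟩
      · rintro ⟨⟨h1, h2, h3⟩, h4⟩
        exact ⟨h1, h2, h3, (hit_iff h3 n).mpr h4⟩
    rw [h1, sum_filter]
    apply sum_congr rfl
    intro q hq
    split_ifs <;> simp
  simp only [hHM] at hls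
  have hlow : (bad.card : ℝ) * (η * w * L) ^ 2 ≤
      ∑ n ∈ Icc 1 N, (∑ q ∈ (Icc 1 Q).filter (fun q => q.Prime ∧ w < q ∧ hit q n w), Real.log q - M) ^ 2 := by
    calc (bad.card : ℝ) * (η * w * L) ^ 2 = ∑ n ∈ bad, (η * w * L) ^ 2 := by
          rw [sum_const, nsmul_eq_mul]
      _ ≤ ∑ n ∈ bad, (∑ q ∈ (Icc 1 Q).filter (fun q => q.Prime ∧ w < q ∧ hit q n w), Real.log q - M) ^ 2 := by
          apply sum_le_sum
          intro n hn
          have h1 := (mem_filter.mp hn).2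
          have h2 : 0 ≤ η * w * L := by positivity
          apply pow_le_pow_left₀ h2
          nlinarith
      _ ≤ _ := by
          apply sum_le_sum_of_subset_of_nonneg (filter_subset _ _)
          intro i _ _
          positivity
  have hfin : (bad.card : ℝ) * (η * w * L) ^ 2 ≤
      6 * ((N : ℝ) + (Q : ℝ) ^ 2) * (9 / 2 * η * w * L ^ 2) := by
    refine hlow.trans (hls.trans ?_)
    apply mul_le_mul_of_nonneg_left hV (by positivity)
  have hpos : 0 < η * w * L ^ 2 := by positivity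
  have h1 : ((bad.card : ℝ) * (η * w)) * (η * w * L ^ 2) ≤
      (27 * ((N : ℝ) + (Q : ℝ) ^ 2)) * (η * w * L ^ 2) := by
    calc ((bad.card : ℝ) * (η * w)) * (η * w * L ^ 2) = (bad.card : ℝ) * (η * w * L) ^ 2 := by ring
      _ ≤ _ := hfin
      _ = _ := by ring
  exact le_of_mul_le_mul_right h1 hpos

open Classical in
lemma partB (η : ℝ) {N w : ℕ} (hw : 1 ≤ w) (hwN : w ≤ N) :
    (((Icc 1 N).filter (fun n₀ => η * w <
      (((Ioo (n₀ - w) (n₀ + w)).filter (fun n => ∃ q : ℕ, q.Prime ∧ w < q ∧ q ^ 2 ∣ n)).card : ℝ))).card : ℝ) *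
      (η * w) ≤ 4 * (N : ℝ) := by
  have hwR : (1 : ℝ) ≤ w := by exact_mod_cast hw
  set Z := (Ioc 0 (2 * N)).filter (fun n => ∃ q : ℕ, q.Prime ∧ w < q ∧ q ^ 2 ∣ n) with hZ
  have hZcard : (Z.card : ℝ) ≤ 2 * N / w := by
    have h1 : Z ⊆ (Ioc w (max w (2 * N))).biUnion (fun q => (Ioc 0 (2 * N)).filter (fun n => q ^ 2 ∣ n)) := by
      intro n hn
      obtain ⟨h1, q, hq, hwq, hqn⟩ := mem_filter.mp hn
      rw [mem_biUnion]
      rw [mem_Ioc] at h1
      refine ⟨q, ?_, mem_filter.mpr ⟨mem_Ioc.mpr h1, hqn⟩⟩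
      rw [mem_Ioc]
      have h2 : q ^ 2 ≤ n := Nat.le_of_dvd h1.1 hqn
      have h3 : q ≤ q ^ 2 := Nat.le_self_pow (by norm_num) q
      exact ⟨hwq, le_max_of_le_right (by omega)⟩
    have h2 := (card_le_card h1).trans card_biUnion_le
    have h3 : (Z.card : ℝ) ≤ ∑ q ∈ Ioc w (max w (2 * N)), (2 * N : ℝ) * ((q : ℝ) ^ 2)⁻¹ := by
      refine (Nat.cast_le.mpr h2).trans ?_
      push_cast
      apply sum_le_sum
      intro q hq
      rw [Nat.Ioc_filter_dvd_card_eq_div]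
      refine Nat.cast_div_le.trans (le_of_eq ?_)
      push_cast
      rw [div_eq_mul_inv]
    refine h3.trans ?_
    rw [← mul_sum]
    have h4 := sum_Ioc_inv_sq_le_sub (α := ℝ) (k := w) (n := max w (2 * N)) (by omega) (le_max_left _ _)
    have h5 : (0 : ℝ) ≤ ((max w (2 * N) : ℕ) : ℝ)⁻¹ := by positivity
    rw [div_eq_mul_inv]
    apply mul_le_mul_of_nonneg_left (by linarith) (by positivity)
  set bad := (Icc 1 N).filter (fun n₀ => η * w <
      (((Ioo (n₀ - w) (n₀ + w)).filter (fun n => ∃ q : ℕ, q.Prime ∧ w < q ∧ q ^ 2 ∣ n)).card : ℝ)) with hbad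
  have hsub : ∀ n₀ ∈ Icc 1 N, (Ioo (n₀ - w) (n₀ + w)).filter (fun n => ∃ q : ℕ, q.Prime ∧ w < q ∧ q ^ 2 ∣ n) ⊆
      Z.filter (fun n => n₀ < n + w ∧ n < n₀ + w) := by
    intro n₀ hn₀ n hn
    obtain ⟨h1, h2⟩ := mem_filter.mp hn
    rw [mem_Ioo] at h1
    rw [mem_Icc] at hn₀
    rw [mem_filter, hZ, mem_filter, mem_Ioc]
    exact ⟨⟨⟨by omega, by omega⟩, h2⟩, by omega, by omega⟩
  have hdc : ∑ n₀ ∈ Icc 1 N, (Z.filter (fun n => n₀ < n + w ∧ n < n₀ + w)).card =
      ∑ n ∈ Z, ((Icc 1 N).filter (fun n₀ => n₀ < n + w ∧ n < n₀ + w)).card :=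
    Finset.sum_card_bipartiteAbove_eq_sum_card_bipartiteBelow (fun n₀ n => n₀ < n + w ∧ n < n₀ + w)
  have hcol : ∀ n ∈ Z, ((Icc 1 N).filter (fun n₀ => n₀ < n + w ∧ n < n₀ + w)).card ≤ 2 * w := by
    intro n hn
    have h1 : (Icc 1 N).filter (fun n₀ => n₀ < n + w ∧ n < n₀ + w) ⊆ Ico (n + 1 - w) (n + w) := by
      intro x hx
      obtain ⟨h1, h2, h3⟩ := mem_filter.mp hx
      rw [mem_Ico]
      omega
    refine (card_le_card h1).trans ?_
    rw [Nat.card_Ico]
    omega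
  have h1 : (bad.card : ℝ) * (η * w) ≤ ∑ n₀ ∈ bad,
      (((Ioo (n₀ - w) (n₀ + w)).filter (fun n => ∃ q : ℕ, q.Prime ∧ w < q ∧ q ^ 2 ∣ n)).card : ℝ) := by
    rw [← nsmul_eq_mul, ← sum_const]
    apply sum_le_sum
    intro n hn
    exact (mem_filter.mp hn).2.le
  have h2 : ∑ n₀ ∈ bad,
      (((Ioo (n₀ - w) (n₀ + w)).filter (fun n => ∃ q : ℕ, q.Prime ∧ w < q ∧ q ^ 2 ∣ n)).card : ℝ) ≤
      ((∑ n₀ ∈ Icc 1 N, (Z.filter (fun n => n₀ < n + w ∧ n < n₀ + w)).card : ℕ) : ℝ) := by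
    push_cast
    calc _ ≤ ∑ n₀ ∈ bad, ((Z.filter (fun n => n₀ < n + w ∧ n < n₀ + w)).card : ℝ) := by
          apply sum_le_sum
          intro n hn
          exact_mod_cast card_le_card (hsub n (mem_filter.mp hn).1)
      _ ≤ _ := by
          apply sum_le_sum_of_subset_of_nonneg (filter_subset _ _)
          intro i _ _
          positivity
  have h3 : ((∑ n₀ ∈ Icc 1 N, (Z.filter (fun n => n₀ < n + w ∧ n < n₀ + w)).card : ℕ) : ℝ) ≤
      Z.card * (2 * w) := by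
    rw [hdc]
    have : ∑ n ∈ Z, ((Icc 1 N).filter (fun n₀ => n₀ < n + w ∧ n < n₀ + w)).card ≤ Z.card * (2 * w) := by
      rw [← smul_eq_mul]
      exact sum_le_card_nsmul _ _ _ hcol
    exact_mod_cast this
  calc (bad.card : ℝ) * (η * w) ≤ Z.card * (2 * w) := h1.trans (h2.trans h3)
    _ ≤ 2 * N / w * (2 * w) := by gcongr
    _ = 4 * N := by field_simp; ring

theorem taskREG : TaskREG := by
  intro hLS ⟨C, hC⟩ η hη hη1 θ hθ1 hθ2
  have hlogT : Tendsto (fun N : ℕ => Real.log (N : ℝ)) atTop atTop :=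
    Real.tendsto_log_atTop.comp tendsto_natCast_atTop_atTop
  have e1 : ∀ᶠ N : ℕ in atTop, 8 * C / η ≤ Real.log N := hlogT.eventually_ge_atTop _
  have e2 : ∀ᶠ N : ℕ in atTop, (1 : ℝ) ≤ Real.log N := hlogT.eventually_ge_atTop _
  have e3 : ∀ᶠ N : ℕ in atTop, (3 * Real.log N) * (58 / η) ≤ (N : ℝ) ^ (η / 2) := by
    have h1 := (isLittleO_log_rpow_atTop (show 0 < η / 2 by positivity)).bound
      (show 0 < η / 174 by positivity)
    have h2 := tendsto_natCast_atTop_atTop.eventually h1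
    filter_upwards [h2, e2] with N h3 h4
    rw [Real.norm_of_nonneg (by linarith), Real.norm_of_nonneg (by positivity)] at h3
    calc (3 * Real.log N) * (58 / η) = 174 / η * Real.log N := by ring
      _ ≤ 174 / η * (η / 174 * (N : ℝ) ^ (η / 2)) := by gcongr
      _ = (N : ℝ) ^ (η / 2) := by field_simp
  filter_upwards [e1, e2, e3, eventually_ge_atTop 2] with N h1 h2 h3 hN
  classical
  have hNR : (2 : ℝ) ≤ N := by exact_mod_cast hN
  have hN1 : (1 : ℝ) ≤ N := by linarith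
  have hN0 : (0 : ℝ) < N := by linarith
  have hCN : 8 * C ≤ η * Real.log N := by
    rw [div_le_iff₀ hη] at h1; linarith
  -- the exceptional sets
  let A : ℕ → Finset ℕ := fun i => (Icc 1 N).filter (fun n => 6 * η * ((2 ^ i : ℕ) : ℝ) * Real.log N <
      ∑ q ∈ (Icc 1 ⌊((2 ^ i : ℕ) : ℝ) * (N : ℝ) ^ (2 * η)⌋₊).filter
        (fun q => q.Prime ∧ 2 ^ i < q ∧ hit q n (2 ^ i)), Real.log q)
  let B : ℕ → Finset ℕ := fun i => (Icc 1 N).filter (fun n₀ => η * ((2 ^ i : ℕ) : ℝ) <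
      (((Ioo (n₀ - 2 ^ i) (n₀ + 2 ^ i)).filter (fun n => ∃ q : ℕ, q.Prime ∧ 2 ^ i < q ∧ q ^ 2 ∣ n)).card : ℝ))
  let S : Finset ℕ := (range (Nat.log 2 N + 1)).filter (fun i => (N : ℝ) ^ θ ≤ (2 : ℝ) ^ i ∧
    (2 : ℝ) ^ i ≤ (N : ℝ) ^ (1 - 10 * η))
  have hpow1 : (N : ℝ) ^ (1 - 10 * η) ≤ N := by
    calc (N : ℝ) ^ (1 - 10 * η) ≤ (N : ℝ) ^ (1 : ℝ) := Real.rpow_le_rpow_of_exponent_le hN1 (by linarith)
      _ = N := Real.rpow_one _
  have hsub : E2 η θ N ⊆ ↑(S.biUnion (fun i => A i ∪ B i)) := by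
    rintro n₀ ⟨hn1, hn2, i, hi1, hi2, hreg⟩
    have hi3 : 2 ^ i ≤ N := by
      have : (2 : ℝ) ^ i ≤ N := hi2.trans hpow1
      exact_mod_cast this
    have hi4 : i ∈ S := by
      simp only [S, mem_filter, mem_range]
      exact ⟨Nat.lt_succ_of_le (Nat.le_log_of_pow_le (by norm_num) hi3), hi1, hi2⟩
    rw [mem_coe, mem_biUnion]
    refine ⟨i, hi4, ?_⟩
    rw [mem_union]
    unfold Reg at hreg
    rw [not_and_or, not_le, not_le] at hreg
    rcases hreg with h | h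
    · left
      simp only [A, mem_filter, mem_Icc]
      exact ⟨⟨hn1, hn2⟩, by convert h using 1⟩
    · right
      simp only [B, mem_filter, mem_Icc]
      exact ⟨⟨hn1, hn2⟩, by convert h using 1⟩
  have hN1θ : (0 : ℝ) < (N : ℝ) ^ (1 - θ) := by positivity
  have hAB : ∀ i ∈ S, (((A i ∪ B i).card : ℕ) : ℝ) ≤ 58 / η * (N : ℝ) ^ (1 - θ) := by
    intro i hi
    obtain ⟨hi0, hi1, hi2⟩ := mem_filter.mp hi
    set w : ℕ := 2 ^ i with hw
    have hwR : ((w : ℕ) : ℝ) = (2 : ℝ) ^ i := by rw [hw]; push_cast; rfl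
    rw [← hwR] at hi1 hi2
    have hw1 : 1 ≤ w := Nat.one_le_two_pow
    have hw1R : (1 : ℝ) ≤ w := by exact_mod_cast hw1
    have hwN : w ≤ N := by exact_mod_cast hi2.trans hpow1
    set Q : ℕ := ⌊(w : ℝ) * (N : ℝ) ^ (2 * η)⌋₊ with hQ
    have hNη : (1 : ℝ) ≤ (N : ℝ) ^ (2 * η) := Real.one_le_rpow hN1 (by positivity)
    have hwQ : w ≤ Q := by
      rw [hQ]
      apply Nat.le_floor
      nlinarith
    have hQle : (Q : ℝ) ≤ (w : ℝ) * (N : ℝ) ^ (2 * η) := Nat.floor_le (by positivity)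
    have hQN : Q ≤ N := by
      have : (Q : ℝ) ≤ N := by
        calc (Q : ℝ) ≤ (w : ℝ) * (N : ℝ) ^ (2 * η) := hQle
          _ ≤ (N : ℝ) ^ (1 - 10 * η) * (N : ℝ) ^ (2 * η) := by gcongr
          _ = (N : ℝ) ^ (1 - 10 * η + 2 * η) := (Real.rpow_add hN0 _ _).symm
          _ ≤ (N : ℝ) ^ (1 : ℝ) := Real.rpow_le_rpow_of_exponent_le hN1 (by linarith)
          _ = N := Real.rpow_one _
      exact_mod_cast this
    have hlogQ : Real.log Q ≤ Real.log w + 2 * η * Real.log N := by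
      have hQ1 : (0 : ℝ) < Q := by
        have : 1 ≤ Q := hw1.trans hwQ
        exact_mod_cast this
      calc Real.log Q ≤ Real.log ((w : ℝ) * (N : ℝ) ^ (2 * η)) := Real.log_le_log hQ1 hQle
        _ = Real.log w + 2 * η * Real.log N := by
          rw [Real.log_mul (by positivity) (by positivity), Real.log_rpow hN0]
    have hA := partA hLS hC hη hw1 hwQ hQN hN hlogQ hCN
    have hB := partB η hw1 hwN
    have hAc : (((A i).card : ℕ) : ℝ) * (η * w) ≤ 27 * ((N : ℝ) + (Q : ℝ) ^ 2) := by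
      convert hA using 3
    have hBc : (((B i).card : ℕ) : ℝ) * (η * w) ≤ 4 * (N : ℝ) := by
      convert hB using 3
    have hNw : (N : ℝ) ≤ (N : ℝ) ^ (1 - θ) * w := by
      calc (N : ℝ) = (N : ℝ) ^ (1 - θ) * (N : ℝ) ^ θ := by
            rw [← Real.rpow_add hN0]
            simp
        _ ≤ (N : ℝ) ^ (1 - θ) * w := by gcongr
    have hQw : (Q : ℝ) ^ 2 ≤ (N : ℝ) ^ (1 - θ) * w := by
      calc (Q : ℝ) ^ 2 ≤ ((w : ℝ) * (N : ℝ) ^ (2 * η)) ^ 2 := by gcongr
        _ = w * (N : ℝ) ^ (4 * η) * w := by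
          rw [mul_pow, ← Real.rpow_natCast ((N : ℝ) ^ (2 * η)) 2, ← Real.rpow_mul hN0.le]
          rw [show 2 * η * ((2 : ℕ) : ℝ) = 4 * η by push_cast; ring]
          ring
        _ ≤ (N : ℝ) ^ (1 - 10 * η) * (N : ℝ) ^ (4 * η) * w := by gcongr
        _ = (N : ℝ) ^ (1 - 10 * η + 4 * η) * w := by rw [Real.rpow_add hN0]
        _ ≤ (N : ℝ) ^ (1 - θ) * w := by
          apply mul_le_mul_of_nonneg_right _ (by positivity)
          exact Real.rpow_le_rpow_of_exponent_le hN1 (by linarith)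
    have hsum : (((A i).card : ℕ) : ℝ) * (η * w) + (((B i).card : ℕ) : ℝ) * (η * w) ≤
        58 * (N : ℝ) ^ (1 - θ) * w := by
      nlinarith
    have hηw : 0 < η * w := by positivity
    have hcu : (((A i ∪ B i).card : ℕ) : ℝ) ≤ ((A i).card : ℝ) + ((B i).card : ℝ) := by
      exact_mod_cast card_union_le _ _
    refine hcu.trans ?_
    apply le_of_mul_le_mul_right _ hηw
    calc (((A i).card : ℝ) + ((B i).card : ℝ)) * (η * w) ≤ 58 * (N : ℝ) ^ (1 - θ) * w := by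
          rw [add_mul]; exact hsum
      _ = 58 / η * (N : ℝ) ^ (1 - θ) * (η * w) := by field_simp
  have hScard : ((S.card : ℕ) : ℝ) ≤ 3 * Real.log N := by
    have h4 : S.card ≤ Nat.log 2 N + 1 := by
      refine (card_le_card (filter_subset _ _)).trans ?_
      rw [card_range]
    have h5 : ((Nat.log 2 N : ℕ) : ℝ) * Real.log 2 ≤ Real.log N := by
      rw [← Real.log_pow]
      apply Real.log_le_log (by positivity)
      exact_mod_cast Nat.pow_log_le_self 2 (by omega)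
    have h6 := Real.log_two_gt_d9
    have h7 : ((Nat.log 2 N : ℕ) : ℝ) ≤ 2 * Real.log N := by nlinarith [Nat.cast_nonneg (α := ℝ) (Nat.log 2 N)]
    calc ((S.card : ℕ) : ℝ) ≤ ((Nat.log 2 N + 1 : ℕ) : ℝ) := by exact_mod_cast h4
      _ ≤ 3 * Real.log N := by push_cast; linarith
  calc ((E2 η θ N).ncard : ℝ) ≤ (((S.biUnion (fun i => A i ∪ B i)).card : ℕ) : ℝ) := by
        rw [← Set.ncard_coe_finset]
        exact_mod_cast Set.ncard_le_ncard hsub (Finset.finite_toSet _)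
    _ ≤ ∑ i ∈ S, (((A i ∪ B i).card : ℕ) : ℝ) := by
        exact_mod_cast card_biUnion_le
    _ ≤ ∑ i ∈ S, 58 / η * (N : ℝ) ^ (1 - θ) := sum_le_sum hAB
    _ = (S.card : ℝ) * (58 / η * (N : ℝ) ^ (1 - θ)) := by rw [sum_const, nsmul_eq_mul]
    _ ≤ 3 * Real.log N * (58 / η * (N : ℝ) ^ (1 - θ)) := by gcongr
    _ = (3 * Real.log N * (58 / η)) * (N : ℝ) ^ (1 - θ) := by ring
    _ ≤ (N : ℝ) ^ (η / 2) * (N : ℝ) ^ (1 - θ) := by gcongr
    _ = (N : ℝ) ^ (1 - θ + η / 2) := by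
        rw [← Real.rpow_add hN0]
        congr 1
        ring

end Pool.Agent.H157R3.D6
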